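import Mathlib
import Pool.Agent.MP_88ca14_an.Final

/-!
A locally reflexive C⋆-algebra that is not exact.
-/

namespace Pool.Agent.Results.MP_88ca14_an.LRNotExact

open Pool.Agent.MP_88ca14_an.Sp

theorem result : ∃ (A : Type) (_ : CStarAlgebra A) (_ : PartialOrder A) (_ : StarOrderedRing A),
    LocallyReflexive A ∧ ¬ IsExact A :=
  Pool.Agent.MP_88ca14_an.sp_main

end Pool.Agent.Results.MP_88ca14_an.LRNotExact
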